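import Mathlib
import Pool.Agent.FT934.CB
set_option autoImplicit false
open MeasureTheory intervalIntegral Set
namespace FT722
noncomputable section

/-- area of a parallelogram given by two linear functionals -/
theorem strip_vol {a b c d x0 x1 y0 y1 : ℝ} (hD : a * d - b * c ≠ 0) (hx : x0 ≤ x1) (hy : y0 ≤ y1) :
    volume {w : ℝ × ℝ | (x0 ≤ a * w.1 + b * w.2 ∧ a * w.1 + b * w.2 ≤ x1) ∧
      (y0 ≤ c * w.1 + d * w.2 ∧ c * w.1 + d * w.2 ≤ y1)} =
      ENNReal.ofReal ((x1 - x0) * (y1 - y0) / |a * d - b * c|) := by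
  set f := Matrix.toLin (Module.Basis.finTwoProd ℝ) (Module.Basis.finTwoProd ℝ) !![a, b; c, d] with hf
  have hdet : LinearMap.det f = a * d - b * c := by
    rw [hf, LinearMap.det_toLin, Matrix.det_fin_two_of]
  have happ : ∀ w : ℝ × ℝ, f w = (a * w.1 + b * w.2, c * w.1 + d * w.2) := by
    intro w
    rw [hf, Matrix.toLin_finTwoProd_apply]
  have hset : {w : ℝ × ℝ | (x0 ≤ a * w.1 + b * w.2 ∧ a * w.1 + b * w.2 ≤ x1) ∧
      (y0 ≤ c * w.1 + d * w.2 ∧ c * w.1 + d * w.2 ≤ y1)} = f ⁻¹' (Icc x0 x1 ×ˢ Icc y0 y1) := by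
    ext w
    simp only [Set.mem_ofPred_eq, mem_preimage, happ, mem_prod, mem_Icc]
  rw [hset, Measure.addHaar_preimage_linearMap volume (by rw [hdet]; exact hD), hdet,
    Measure.volume_eq_prod, Measure.prod_prod, Real.volume_Icc, Real.volume_Icc,
    ← ENNReal.ofReal_mul (by linarith), ← ENNReal.ofReal_mul (abs_nonneg _)]
  congr 1
  rw [abs_inv]
  field_simp

theorem le_vol' {p q : ℝ} {f g : ℝ → ℝ} (ha : p ≤ q) (hf : ContinuousOn f (Icc p q))
    (hg : ContinuousOn g (Icc p q)) (hfg : ∀ s ∈ Icc p q, f s ≤ g s) {E : Set (ℝ × ℝ)}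
    (hE : ∀ s ∈ Ioo p q, ∀ t, f s < t → t < g s → (s, t) ∈ E) :
    ENNReal.ofReal (∫ s in p..q, (g s - f s)) ≤ volume E := by
  have h1 := volume_regionBetween_eq_integral (μ := (volume : Measure ℝ)) (f := f) (g := g)
    (s := Ioo p q)
    ((hf.integrableOn_compact isCompact_Icc).mono_set Ioo_subset_Icc_self)
    ((hg.integrableOn_compact isCompact_Icc).mono_set Ioo_subset_Icc_self)
    measurableSet_Ioo (fun s hs => hfg s (Ioo_subset_Icc_self hs))
  rw [← Measure.volume_eq_prod] at h1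
  have h2 : (∫ s in p..q, (g s - f s)) = ∫ y in Ioo p q, (g - f) y := by
    rw [intervalIntegral.integral_of_le ha, ← integral_Ioc_eq_integral_Ioo]
    rfl
  rw [h2, ← h1]
  apply measure_mono
  rintro ⟨s, t⟩ hp
  simp only [regionBetween, Set.mem_ofPred_eq, mem_Ioo] at hp
  exact hE s hp.1 t hp.2.1 hp.2.2

theorem le_vol {a : ℝ} {f g : ℝ → ℝ} (ha : -a ≤ a) (hf : ContinuousOn f (Icc (-a) a))
    (hg : ContinuousOn g (Icc (-a) a)) (hfg : ∀ s ∈ Icc (-a) a, f s ≤ g s) {E : Set (ℝ × ℝ)}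
    (hE : ∀ s ∈ Icc (-a) a, ∀ t, f s < t → t < g s → (s, t) ∈ E) :
    ENNReal.ofReal (∫ s in (-a)..a, (g s - f s)) ≤ volume E :=
  le_vol' ha hf hg hfg (fun s hs => hE s (Ioo_subset_Icc_self hs))

theorem vol_le' {p q : ℝ} {f g : ℝ → ℝ} (ha : p ≤ q) (hf : ContinuousOn f (Icc p q))
    (hg : ContinuousOn g (Icc p q)) (hfg : ∀ s ∈ Icc p q, f s ≤ g s) {E : Set (ℝ × ℝ)}
    (hE : ∀ w ∈ E, w.1 ∈ Icc p q ∧ f w.1 ≤ w.2 ∧ w.2 ≤ g w.1) :
    volume E ≤ ENNReal.ofReal (∫ s in p..q, (g s - f s)) := by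
  have key : ∀ ε : ℝ, 0 < ε → volume E ≤
      ENNReal.ofReal ((∫ s in p..q, (g s - f s)) + 2 * (q - p) * ε) := by
    intro ε hε
    have h1 := volume_regionBetween_eq_integral (μ := (volume : Measure ℝ))
      (f := fun s => f s - ε) (g := fun s => g s + ε) (s := Icc p q)
      ((hf.sub continuousOn_const).integrableOn_compact isCompact_Icc)
      ((hg.add continuousOn_const).integrableOn_compact isCompact_Icc)
      measurableSet_Icc (fun x hx => by have := hfg x hx; linarith)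
    rw [← Measure.volume_eq_prod] at h1
    have h2 : (∫ y in Icc p q, ((fun s => g s + ε) - (fun s => f s - ε)) y) =
        (∫ s in p..q, (g s - f s)) + 2 * (q - p) * ε := by
      rw [integral_Icc_eq_integral_Ioc, ← intervalIntegral.integral_of_le ha]
      have : (fun y => ((fun s => g s + ε) - (fun s => f s - ε)) y) =
          fun y => (g y - f y) + 2 * ε := by
        funext y; simp only [Pi.sub_apply]; ring
      rw [this, intervalIntegral.integral_add, intervalIntegral.integral_const]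
      · simp only [smul_eq_mul]; ring
      · apply ContinuousOn.intervalIntegrable
        rw [uIcc_of_le ha]
        exact hg.sub hf
      · simp
    rw [h2] at h1
    rw [← h1]
    apply measure_mono
    rintro ⟨s, t⟩ hp
    obtain ⟨h3, h4, h5⟩ := hE _ hp
    simp only [regionBetween, Set.mem_ofPred_eq, mem_Ioo]
    simp only at h4 h5
    exact ⟨h3, by linarith, by linarith⟩
  have hI : 0 ≤ ∫ s in p..q, (g s - f s) := by
    apply intervalIntegral.integral_nonneg ha
    intro s hs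
    linarith [hfg s hs]
  apply ENNReal.le_of_forall_pos_le_add
  intro ε hε _
  rcases ha.eq_or_lt with h0 | h0
  · have h3 := key 1 one_pos
    have h4 : 2 * (q - p) * 1 = 0 := by rw [h0]; ring
    rw [h4, add_zero] at h3
    exact h3.trans le_self_add
  · have ha0 : 0 < q - p := by linarith
    have h3 := key (ε / (2 * (q - p))) (by positivity)
    have h4 : 2 * (q - p) * ((ε : ℝ) / (2 * (q - p))) = ε := by field_simp
    rw [h4, ENNReal.ofReal_add hI (by positivity)] at h3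
    simpa using h3

theorem vol_le {a : ℝ} {f g : ℝ → ℝ} (ha : -a ≤ a) (hf : ContinuousOn f (Icc (-a) a))
    (hg : ContinuousOn g (Icc (-a) a)) (hfg : ∀ s ∈ Icc (-a) a, f s ≤ g s) {E : Set (ℝ × ℝ)}
    (hE : ∀ p ∈ E, p.1 ∈ Icc (-a) a ∧ f p.1 ≤ p.2 ∧ p.2 ≤ g p.1) :
    volume E ≤ ENNReal.ofReal (∫ s in (-a)..a, (g s - f s)) :=
  vol_le' ha hf hg hfg hE

end
end FT722
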