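import Mathlib
import Pool.Agent.FT934.CB
set_option autoImplicit false
open MeasureTheory intervalIntegral Set
namespace FT722
noncomputable section

/-- area of the part of the body above the line of slope `μ` through `z` -/
def kA (a : ℝ) (U : ℝ → ℝ) (z : ℝ × ℝ) (μ : ℝ) : ℝ := ∫ s in (-a)..a, (U s - cl U z μ s)

/-- area of the body -/
def Vol (a : ℝ) (U : ℝ → ℝ) : ℝ := ∫ s in (-a)..a, (U s + U (-s))

/-- folded cap area -/
def kf (a : ℝ) (U : ℝ → ℝ) (z : ℝ × ℝ) (μ : ℝ) : ℝ := min (kA a U z μ) (Vol a U - kA a U z μ)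

/-- cap areas beyond the vertical lines (left extreme `kAL`, right extreme `kAR`) -/
def kAL (a : ℝ) (U : ℝ → ℝ) (z : ℝ × ℝ) : ℝ := ∫ s in (-a)..z.1, (U s + U (-s))
def kAR (a : ℝ) (U : ℝ → ℝ) (z : ℝ × ℝ) : ℝ := ∫ s in z.1..a, (U s + U (-s))

end
end FT722
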