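import Mathlib
import Pool.Agent.FT179.Kap
import Pool.Agent.FT179.Cap
set_option autoImplicit false
open MeasureTheory intervalIntegral Set
namespace FT722
noncomputable section

theorem seg_point {a : ℝ} {U : ℝ → ℝ} (h : Body a U) {e g : ℝ × ℝ} {y : ℝ}
    (he : e ∈ KU a U) (hg : g ∈ KU a U) (h1 : g.2 ≤ y) (h2 : y ≤ e.2) (h3 : g.2 < e.2) :
    (g.1 + (y - g.2) / (e.2 - g.2) * (e.1 - g.1), y) ∈ KU a U := by
  have hd : 0 < e.2 - g.2 := by linarith
  set t := (y - g.2) / (e.2 - g.2) with ht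
  have t0 : 0 ≤ t := div_nonneg (by linarith) hd.le
  have t1 : t ≤ 1 := by rw [ht, div_le_one hd]; linarith
  have t2 : t * (e.2 - g.2) = y - g.2 := by rw [ht]; field_simp
  have := KU_convex h hg he (show (0:ℝ) ≤ 1 - t by linarith) t0 (by ring)
  convert this using 1
  apply Prod.ext
  · simp only [Prod.fst_add, Prod.smul_fst, smul_eq_mul]; ring
  · simp only [Prod.snd_add, Prod.smul_snd, smul_eq_mul]; linarith

theorem left_seg {a : ℝ} {U : ℝ → ℝ} (h : Body a U) {z e g : ℝ × ℝ}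
    (hl : ∀ s < z.1, (s, z.2) ∉ KU a U)
    (he : e ∈ KU a U) (hg : g ∈ KU a U) (h1 : g.2 ≤ z.2) (h2 : z.2 ≤ e.2) (h3 : g.2 < e.2) :
    0 ≤ (e.1 - g.1) * (z.2 - g.2) - (e.2 - g.2) * (z.1 - g.1) := by
  have hm := seg_point h he hg h1 h2 h3
  have hd : 0 < e.2 - g.2 := by linarith
  have h4 : z.1 ≤ g.1 + (z.2 - g.2) / (e.2 - g.2) * (e.1 - g.1) := by
    by_contra hcon
    push Not at hcon
    exact hl _ hcon hm
  have h5 := mul_le_mul_of_nonneg_right h4 hd.le
  have h6 : (g.1 + (z.2 - g.2) / (e.2 - g.2) * (e.1 - g.1)) * (e.2 - g.2)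
      = g.1 * (e.2 - g.2) + (z.2 - g.2) * (e.1 - g.1) := by field_simp
  rw [h6] at h5
  linarith

theorem right_seg {a : ℝ} {U : ℝ → ℝ} (h : Body a U) {z e g : ℝ × ℝ}
    (hr : ∀ s, z.1 < s → (s, z.2) ∉ KU a U)
    (he : e ∈ KU a U) (hg : g ∈ KU a U) (h1 : g.2 ≤ z.2) (h2 : z.2 ≤ e.2) (h3 : g.2 < e.2) :
    (e.1 - g.1) * (z.2 - g.2) - (e.2 - g.2) * (z.1 - g.1) ≤ 0 := by
  have hm := seg_point h he hg h1 h2 h3
  have hd : 0 < e.2 - g.2 := by linarith
  have h4 : g.1 + (z.2 - g.2) / (e.2 - g.2) * (e.1 - g.1) ≤ z.1 := by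
    by_contra hcon
    push Not at hcon
    exact hr _ hcon hm
  have h5 := mul_le_mul_of_nonneg_right h4 hd.le
  have h6 : (g.1 + (z.2 - g.2) / (e.2 - g.2) * (e.1 - g.1)) * (e.2 - g.2)
      = g.1 * (e.2 - g.2) + (z.2 - g.2) * (e.1 - g.1) := by field_simp
  rw [h6] at h5
  linarith

theorem cl_zero (U : ℝ → ℝ) (z : ℝ × ℝ) (s : ℝ) : cl U z 0 s = max (-U (-s)) (min (U s) z.2) := by
  unfold cl; rw [zero_mul, add_zero]

/-- the area beyond `z' z`, `x < x'` -/
theorem beyond_lt {a : ℝ} {U : ℝ → ℝ} (h : Body a U) {x y x' y' : ℝ}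
    (hz : (x, y) ∈ KU a U) (hz' : (x', y') ∈ KU a U)
    (hl : ∀ s < x, (s, y) ∉ KU a U) (hr : ∀ s, x' < s → (s, y') ∉ KU a U)
    (hy : y' ≤ y) (hx : x < x') :
    ∃ c : ℝ, 0 ≤ c ∧ volume (beyond a U (x', y') (x, y)) = ENNReal.ofReal c ∧
      c = (∫ s in (-a)..a, U s) - (∫ s in (-a)..x, cl U (x, y) 0 s) -
        (∫ s in x'..a, cl U (x', y') 0 s) - (x' - x) * (y + y') / 2 := by
  have hxI : x ∈ Icc (-a) a := KU_Icc hz
  have hxI' : x' ∈ Icc (-a) a := KU_Icc hz'
  have hd : 0 < x' - x := by linarith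
  set ν := (y' - y) / (x' - x) with hν
  have hνd : ν * (x' - x) = y' - y := by rw [hν]; field_simp
  have hν0 : ν ≤ 0 := by rw [hν]; exact div_nonpos_of_nonpos_of_nonneg (by linarith) hd.le
  set S : ℝ → ℝ := cl U (x, y) ν with hS
  have hSdef : ∀ s, S s = max (-U (-s)) (min (U s) (y + ν * (s - x))) := fun s => rfl
  have hSc : ContinuousOn S (Icc (-a) a) := cl_cont h _ _
  have hSU : ∀ s ∈ Icc (-a) a, S s ≤ U s := fun s hs => max_le (lo_le_up h hs) (min_le_left _ _)
  have hcr : ∀ w : ℝ × ℝ, (cr (x', y') (x, y) < cr w (x, y) + cr (x', y') w) ↔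
      y + ν * (w.1 - x) < w.2 := by
    intro w
    have e : cr w (x, y) + cr (x', y') w - cr (x', y') (x, y)
        = (x' - x) * (w.2 - (y + ν * (w.1 - x))) := by
      have : (x' - x) * (w.2 - (y + ν * (w.1 - x)))
          = (x' - x) * (w.2 - y) - (ν * (x' - x)) * (w.1 - x) := by ring
      rw [this, hνd]
      unfold cr; simp only; ring
    constructor
    · intro h1
      have h2 : 0 < (x' - x) * (w.2 - (y + ν * (w.1 - x))) := by rw [← e]; linarith
      have := (mul_pos_iff_of_pos_left hd).1 h2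
      linarith
    · intro h1
      have h2 : 0 < (x' - x) * (w.2 - (y + ν * (w.1 - x))) := mul_pos hd (by linarith)
      rw [← e] at h2
      linarith
  have hA : ∀ s ∈ Icc (-a) a, s < x → S s = cl U (x, y) 0 s := by
    intro s hs hsx
    rw [cl_zero]
    simp only
    rw [hSdef]
    have hll : y ≤ y + ν * (s - x) := by nlinarith
    apply le_antisymm
    · by_contra hcon
      push Not at hcon
      obtain ⟨Y, hY1, hY2⟩ := exists_between hcon
      rw [lt_max_iff] at hY2
      rw [max_lt_iff] at hY1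
      have hlo := hY1.1
      have hYS : Y < min (U s) (y + ν * (s - x)) := by
        rcases hY2 with h1 | h1
        · linarith
        · exact h1
      rw [lt_min_iff] at hYS
      have hyY : y < Y := by
        rcases min_lt_iff.1 hY1.2 with h1 | h1
        · linarith [hYS.1]
        · exact h1
      have hm : (s, Y) ∈ KU a U := by rw [mem_KU_iff]; exact ⟨hs, hlo.le, hYS.1.le⟩
      have := left_seg h (z := (x, y)) hl hm hz' hy hyY.le (by simp only; linarith)
      simp only at this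
      have h5 : (x' - x) * (Y - y') < (x' - x) * (y + ν * (s - x) - y') :=
        mul_lt_mul_of_pos_left (by linarith [hYS.2]) hd
      have h6 : (x' - x) * (y + ν * (s - x) - y') = (x' - x) * (y - y') + (ν * (x' - x)) * (s - x) := by
        ring
      rw [h6, hνd] at h5
      nlinarith
    · exact max_le_max le_rfl (min_le_min le_rfl hll)
  have hB : ∀ s ∈ Icc (-a) a, x' < s → S s = cl U (x', y') 0 s := by
    intro s hs hsx
    rw [cl_zero]
    simp only
    rw [hSdef]
    have hll : y + ν * (s - x) ≤ y' := by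
      have : y + ν * (s - x) = y + ν * (x' - x) + ν * (s - x') := by ring
      rw [this, hνd]; nlinarith
    apply le_antisymm
    · exact max_le_max le_rfl (min_le_min le_rfl hll)
    · by_contra hcon
      push Not at hcon
      obtain ⟨Y, hY1, hY2⟩ := exists_between hcon
      rw [lt_max_iff] at hY2
      rw [max_lt_iff] at hY1
      have hlo := hY1.1
      have hYS : Y < min (U s) y' := by
        rcases hY2 with h1 | h1
        · linarith
        · exact h1
      rw [lt_min_iff] at hYS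
      have hyY : y + ν * (s - x) < Y := by
        rcases min_lt_iff.1 hY1.2 with h1 | h1
        · linarith [hYS.1]
        · exact h1
      have hm : (s, Y) ∈ KU a U := by rw [mem_KU_iff]; exact ⟨hs, hlo.le, hYS.1.le⟩
      have := right_seg h (z := (x', y')) hr hz hm hYS.2.le hy (by simp only; linarith [hYS.2])
      simp only at this
      have h5 : (x' - x) * (y + ν * (s - x) - y') < (x' - x) * (Y - y') :=
        mul_lt_mul_of_pos_left (by linarith [hYS.2]) hd
      have h6 : (x' - x) * (y + ν * (s - x) - y') = (x' - x) * (y - y') + (ν * (x' - x)) * (s - x) := by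
        ring
      rw [h6, hνd] at h5
      nlinarith
  have hAi : (∫ s in (-a)..x, S s) = ∫ s in (-a)..x, cl U (x, y) 0 s := by
    rw [intervalIntegral.integral_of_le hxI.1, intervalIntegral.integral_of_le hxI.1,
      integral_Ioc_eq_integral_Ioo, integral_Ioc_eq_integral_Ioo]
    exact setIntegral_congr_fun measurableSet_Ioo (fun s hs => hA s ⟨hs.1.le, by linarith [hs.2, hxI.2]⟩ hs.2)
  have hBi : (∫ s in x'..a, S s) = ∫ s in x'..a, cl U (x', y') 0 s := by
    rw [intervalIntegral.integral_of_le hxI'.2, intervalIntegral.integral_of_le hxI'.2,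
      integral_Ioc_eq_integral_Ioo, integral_Ioc_eq_integral_Ioo]
    exact setIntegral_congr_fun measurableSet_Ioo (fun s hs => hB s ⟨by linarith [hs.1, hxI'.1], hs.2.le⟩ hs.1)
  have hMi : (∫ s in x..x', S s) = (x' - x) * (y + y') / 2 := by
    have e1 : (∫ s in x..x', S s) = ∫ s in x..x', (y + ν * (s - x)) := by
      apply intervalIntegral.integral_congr
      intro s hs
      exact cl_eq_of_mem (line_mem h hz hz' (by simp only; rw [hνd]) hs)
    rw [e1, integral_affine]
    have : (x' - x) * y + ν * ((x' ^ 2 - x ^ 2) / 2 - x * (x' - x))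
        = (x' - x) * y + (ν * (x' - x)) * (x' - x) / 2 := by ring
    rw [this, hνd]; ring
  have hsplit : (∫ s in (-a)..a, S s) = (∫ s in (-a)..x, S s) + (∫ s in x..x', S s) + ∫ s in x'..a, S s := by
    rw [intervalIntegral.integral_add_adjacent_intervals (ii_of_cont hSc (mem_na h) hxI)
      (ii_of_cont hSc hxI hxI'),
      intervalIntegral.integral_add_adjacent_intervals (ii_of_cont hSc (mem_na h) hxI')
      (ii_of_cont hSc hxI' (mem_a h))]
  have hsub : (∫ s in (-a)..a, (U s - S s)) = (∫ s in (-a)..a, U s) - ∫ s in (-a)..a, S s :=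
    intervalIntegral.integral_sub (ii_of_cont h.cont (mem_na h) (mem_a h))
      (ii_of_cont hSc (mem_na h) (mem_a h))
  refine ⟨∫ s in (-a)..a, (U s - S s), ?_, ?_, ?_⟩
  · apply intervalIntegral.integral_nonneg (by linarith [h.pos])
    intro s hs
    linarith [hSU s hs]
  · apply le_antisymm
    · apply vol_le (by linarith [h.pos]) hSc h.cont hSU
      rintro w ⟨hw1, hw2⟩
      rw [hcr] at hw2
      have hw3 := mem_KU_iff.1 hw1
      refine ⟨hw3.1, ?_, hw3.2.2⟩
      rw [hSdef]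
      exact max_le hw3.2.1 ((min_le_right _ _).trans hw2.le)
    · apply le_vol (by linarith [h.pos]) hSc h.cont hSU
      intro s hs t ht1 ht2
      rw [hSdef, max_lt_iff] at ht1
      refine ⟨by rw [mem_KU_iff]; exact ⟨hs, ht1.1.le, ht2.le⟩, ?_⟩
      rw [hcr]
      rcases min_lt_iff.1 ht1.2 with h1 | h1
      · linarith
      · exact h1
  · rw [hsub, hsplit, hAi, hBi, hMi]; ring

theorem fact_left {a : ℝ} {U : ℝ → ℝ} (h : Body a U) {x y x' y' : ℝ}
    (hz' : (x', y') ∈ KU a U)
    (hl : ∀ s < x, (s, y) ∉ KU a U)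
    (hy : y' ≤ y) (hx : x' ≤ x) (hD : 0 < x' * y - y' * x) {s : ℝ} (hs : s ∈ Icc (-a) a)
    (hsx : s < x) : U s < y := by
  by_contra hcon
  push Not at hcon
  have hlo : y < -U (-s) := by
    by_contra h1
    push Not at h1
    exact hl s hsx (by rw [mem_KU_iff]; exact ⟨hs, h1, hcon⟩)
  have := left_seg h (z := (x, y)) hl (lo_mem h hs) hz' hy hlo.le (by simp only; linarith)
  simp only at this
  have e : (s - x') * (y - y') - (-U (-s) - y') * (x - x')
      = -((x - s) * (y - y')) - (-U (-s) - y) * (x - x') := by ring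
  rw [e] at this
  have p1 : 0 ≤ (x - s) * (y - y') := mul_nonneg (by linarith) (by linarith)
  have p2 : 0 ≤ (-U (-s) - y) * (x - x') := mul_nonneg (by linarith) (by linarith)
  have q1 : (x - s) * (y - y') = 0 := by linarith
  have q2 : (-U (-s) - y) * (x - x') = 0 := by linarith
  have r1 : y = y' := by
    rcases mul_eq_zero.1 q1 with h1 | h1 <;> linarith
  have r2 : x = x' := by
    rcases mul_eq_zero.1 q2 with h1 | h1 <;> linarith
  rw [r1, r2] at hD
  nlinarith

theorem fact_right {a : ℝ} {U : ℝ → ℝ} (h : Body a U) {x y x' y' : ℝ}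
    (hz : (x, y) ∈ KU a U)
    (hr : ∀ s, x' < s → (s, y') ∉ KU a U)
    (hy : y' ≤ y) (hx : x' ≤ x) (hD : 0 < x' * y - y' * x) {s : ℝ} (hs : s ∈ Icc (-a) a)
    (hsx : x' < s) : y' < -U (-s) := by
  by_contra hcon
  push Not at hcon
  have hlo : U s < y' := by
    by_contra h1
    push Not at h1
    exact hr s hsx (by rw [mem_KU_iff]; exact ⟨hs, hcon, h1⟩)
  have := right_seg h (z := (x', y')) hr hz (up_mem h hs) hlo.le hy (by simp only; linarith)
  simp only at this
  have e : (x - s) * (y' - U s) - (y - U s) * (x' - s)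
      = (y - y') * (s - x') + (y' - U s) * (x - x') := by ring
  rw [e] at this
  have p1 : 0 ≤ (y - y') * (s - x') := mul_nonneg (by linarith) (by linarith)
  have p2 : 0 ≤ (y' - U s) * (x - x') := mul_nonneg (by linarith) (by linarith)
  have q1 : (y - y') * (s - x') = 0 := by linarith
  have q2 : (y' - U s) * (x - x') = 0 := by linarith
  have r1 : y = y' := by
    rcases mul_eq_zero.1 q1 with h1 | h1 <;> linarith
  have r2 : x = x' := by
    rcases mul_eq_zero.1 q2 with h1 | h1 <;> linarith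
  rw [r1, r2] at hD
  nlinarith

theorem AB_ints {a : ℝ} {U : ℝ → ℝ} (h : Body a U) {x y x' y' : ℝ}
    (hz : (x, y) ∈ KU a U) (hz' : (x', y') ∈ KU a U)
    (hl : ∀ s < x, (s, y) ∉ KU a U) (hr : ∀ s, x' < s → (s, y') ∉ KU a U)
    (hy : y' ≤ y) (hx : x' ≤ x) (hD : 0 < x' * y - y' * x) :
    (∫ s in (-a)..a, U s) - (∫ s in (-a)..x, cl U (x, y) 0 s) -
        (∫ s in x'..a, cl U (x', y') 0 s) = (∫ s in x..a, U s) - ∫ s in x'..a, -U (-s) := by
  have hxI : x ∈ Icc (-a) a := KU_Icc hz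
  have hxI' : x' ∈ Icc (-a) a := KU_Icc hz'
  have hAi : (∫ s in (-a)..x, cl U (x, y) 0 s) = ∫ s in (-a)..x, U s := by
    rw [intervalIntegral.integral_of_le hxI.1, intervalIntegral.integral_of_le hxI.1,
      integral_Ioc_eq_integral_Ioo, integral_Ioc_eq_integral_Ioo]
    apply setIntegral_congr_fun measurableSet_Ioo
    intro s hs
    have hsI : s ∈ Icc (-a) a := ⟨hs.1.le, by linarith [hs.2, hxI.2]⟩
    have := fact_left h hz' hl hy hx hD hsI hs.2
    rw [cl_zero]
    rw [min_eq_left this.le, max_eq_right (lo_le_up h hsI)]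
  have hBi : (∫ s in x'..a, cl U (x', y') 0 s) = ∫ s in x'..a, -U (-s) := by
    rw [intervalIntegral.integral_of_le hxI'.2, intervalIntegral.integral_of_le hxI'.2,
      integral_Ioc_eq_integral_Ioo, integral_Ioc_eq_integral_Ioo]
    apply setIntegral_congr_fun measurableSet_Ioo
    intro s hs
    have hsI : s ∈ Icc (-a) a := ⟨by linarith [hs.1, hxI'.1], hs.2.le⟩
    have := fact_right h hz hr hy hx hD hsI hs.1
    rw [cl_zero]
    rw [max_eq_left ((min_le_right _ _).trans this.le)]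
  have hsp : (∫ s in (-a)..a, U s) = (∫ s in (-a)..x, U s) + ∫ s in x..a, U s :=
    (intervalIntegral.integral_add_adjacent_intervals (ii_of_cont h.cont (mem_na h) hxI)
      (ii_of_cont h.cont hxI (mem_a h))).symm
  rw [hAi, hBi, hsp]; ring

/-- the area beyond `z' z`, `x' < x` -/
theorem beyond_gt {a : ℝ} {U : ℝ → ℝ} (h : Body a U) {x y x' y' : ℝ}
    (hz : (x, y) ∈ KU a U) (hz' : (x', y') ∈ KU a U)
    (hl : ∀ s < x, (s, y) ∉ KU a U) (hr : ∀ s, x' < s → (s, y') ∉ KU a U)
    (hy : y' ≤ y) (hx : x' < x) (hD : 0 < x' * y - y' * x) :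
    ∃ c : ℝ, 0 ≤ c ∧ volume (beyond a U (x', y') (x, y)) = ENNReal.ofReal c ∧
      c = (∫ s in (-a)..a, U s) - (∫ s in (-a)..x, cl U (x, y) 0 s) -
        (∫ s in x'..a, cl U (x', y') 0 s) - (x' - x) * (y + y') / 2 := by
  have hxI : x ∈ Icc (-a) a := KU_Icc hz
  have hxI' : x' ∈ Icc (-a) a := KU_Icc hz'
  have hd : 0 < x - x' := by linarith
  set ν := (y - y') / (x - x') with hν
  have hνd : ν * (x - x') = y - y' := by rw [hν]; field_simp
  have hν0 : 0 ≤ ν := by rw [hν]; exact div_nonneg (by linarith) hd.le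
  set l : ℝ → ℝ := fun s => y' + ν * (s - x') with hldef
  have hlc : Continuous l := by rw [hldef]; fun_prop
  have hlx : l x = y := by simp only [hldef]; rw [hνd]; ring
  have hcr : ∀ w : ℝ × ℝ, (cr (x', y') (x, y) < cr w (x, y) + cr (x', y') w) ↔
      w.2 < l w.1 := by
    intro w
    have e : cr w (x, y) + cr (x', y') w - cr (x', y') (x, y)
        = (x - x') * (l w.1 - w.2) := by
      have : (x - x') * (l w.1 - w.2)
          = (x - x') * (y' - w.2) + (ν * (x - x')) * (w.1 - x') := by simp only [hldef]; ring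
      rw [this, hνd]
      unfold cr; simp only; ring
    constructor
    · intro h1
      have h2 : 0 < (x - x') * (l w.1 - w.2) := by rw [← e]; linarith
      have := (mul_pos_iff_of_pos_left hd).1 h2
      linarith
    · intro h1
      have h2 : 0 < (x - x') * (l w.1 - w.2) := mul_pos hd (by linarith)
      rw [← e] at h2
      linarith
  -- facts
  have f1 : ∀ s ∈ Icc (-a) a, x < s → U s ≤ l s := by
    intro s hs hsx
    have hls : y ≤ l s := by
      have : l s = l x + ν * (s - x) := by simp only [hldef]; ring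
      rw [this, hlx]; nlinarith
    by_cases hUy : U s ≤ y
    · linarith
    push Not at hUy
    have := left_seg h (z := (x, y)) hl (up_mem h hs) hz' hy hUy.le (by simp only; linarith)
    simp only at this
    have e : (x - x') * (l s - U s) = (s - x') * (ν * (x - x')) - (U s - y') * (x - x') := by
      simp only [hldef]; ring
    rw [hνd] at e
    have h2 : 0 ≤ (x - x') * (l s - U s) := by rw [e]; linarith
    have := (mul_nonneg_iff_of_pos_left hd).1 h2
    linarith
  have f2 : ∀ s ∈ Icc (-a) a, s < x' → l s ≤ -U (-s) := by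
    intro s hs hsx
    have hls : l s ≤ y' := by
      simp only [hldef]
      nlinarith
    by_cases hUy : y' ≤ -U (-s)
    · linarith
    push Not at hUy
    have := right_seg h (z := (x', y')) hr hz (lo_mem h hs) hUy.le hy (by simp only; linarith)
    simp only at this
    have e : (x - x') * (-U (-s) - l s) = (-U (-s) - y') * (x - x') - (s - x') * (ν * (x - x')) := by
      simp only [hldef]; ring
    rw [hνd] at e
    have h2 : 0 ≤ (x - x') * (-U (-s) - l s) := by rw [e]; linarith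
    have := (mul_nonneg_iff_of_pos_left hd).1 h2
    linarith
  have f3 : ∀ s ∈ Icc x' x, (s, l s) ∈ KU a U := by
    intro s hs
    have := line_mem h hz' hz (μ := ν) (by simp only; rw [hνd]) (s := s)
      (by simp only; rw [uIcc_of_le hx.le]; exact hs)
    exact this
  set g : ℝ → ℝ := fun s => min (U s) (l s) with hg
  have hgc : ContinuousOn g (Icc (-a) a) := ContinuousOn.inf h.cont hlc.continuousOn
  have hgc' : ContinuousOn g (Icc x' a) := hgc.mono (Icc_subset_Icc hxI'.1 le_rfl)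
  have hloc : ContinuousOn (fun s => -U (-s)) (Icc (-a) a) := (cont_neg h).neg
  have hloc' : ContinuousOn (fun s => -U (-s)) (Icc x' a) := hloc.mono (Icc_subset_Icc hxI'.1 le_rfl)
  have hlg : ∀ s ∈ Icc x' a, -U (-s) ≤ g s := by
    intro s hs
    have hsI : s ∈ Icc (-a) a := ⟨hxI'.1.trans hs.1, hs.2⟩
    apply le_min (lo_le_up h hsI)
    rcases le_or_gt s x with h1 | h1
    · exact (mem_KU_iff.1 (f3 s ⟨hs.1, h1⟩)).2.1
    · exact (lo_le_up h hsI).trans (f1 s hsI h1)
  have hg1 : (∫ s in x'..x, g s) = (x - x') * (y + y') / 2 := by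
    have e1 : (∫ s in x'..x, g s) = ∫ s in x'..x, (y' + ν * (s - x')) := by
      apply intervalIntegral.integral_congr
      intro s hs
      rw [uIcc_of_le hx.le] at hs
      exact min_eq_right (mem_KU_iff.1 (f3 s hs)).2.2
    rw [e1, integral_affine]
    have : (x - x') * y' + ν * ((x ^ 2 - x' ^ 2) / 2 - x' * (x - x'))
        = (x - x') * y' + (ν * (x - x')) * (x - x') / 2 := by ring
    rw [this, hνd]; ring
  have hg2 : (∫ s in x..a, g s) = ∫ s in x..a, U s := by
    rw [intervalIntegral.integral_of_le hxI.2, intervalIntegral.integral_of_le hxI.2]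
    apply setIntegral_congr_fun measurableSet_Ioc
    intro s hs
    exact min_eq_left (f1 s ⟨by linarith [hs.1, hxI.1], hs.2⟩ hs.1)
  have hsplit : (∫ s in x'..a, g s) = (∫ s in x'..x, g s) + ∫ s in x..a, g s :=
    (intervalIntegral.integral_add_adjacent_intervals (ii_of_cont hgc hxI' hxI)
      (ii_of_cont hgc hxI (mem_a h))).symm
  have hsub : (∫ s in x'..a, (g s - -U (-s))) = (∫ s in x'..a, g s) - ∫ s in x'..a, -U (-s) :=
    intervalIntegral.integral_sub (ii_of_cont hgc hxI' (mem_a h))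
      (ii_of_cont hloc hxI' (mem_a h))
  refine ⟨∫ s in x'..a, (g s - -U (-s)), ?_, ?_, ?_⟩
  · apply intervalIntegral.integral_nonneg hxI'.2
    intro s hs
    linarith [hlg s hs]
  · apply le_antisymm
    · apply vol_le' hxI'.2 hloc' hgc' hlg
      rintro w ⟨hw1, hw2⟩
      rw [hcr] at hw2
      have hw3 := mem_KU_iff.1 hw1
      have hwx : x' ≤ w.1 := by
        by_contra hcon
        push Not at hcon
        have := f2 w.1 hw3.1 hcon
        linarith [hw3.2.1]
      exact ⟨⟨hwx, hw3.1.2⟩, hw3.2.1, le_min hw3.2.2 hw2.le⟩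
    · apply le_vol' hxI'.2 hloc' hgc' hlg
      intro s hs t ht1 ht2
      rw [hg, lt_min_iff] at ht2
      refine ⟨by rw [mem_KU_iff]; exact ⟨⟨by linarith [hs.1, hxI'.1], hs.2.le⟩, ht1.le, ht2.1.le⟩, ?_⟩
      rw [hcr]
      exact ht2.2
  · rw [hsub, hsplit, hg1, hg2, AB_ints h hz hz' hl hr hy hx.le hD]
    ring

/-- the area beyond `z' z`, `x' = x` -/
theorem beyond_eq {a : ℝ} {U : ℝ → ℝ} (h : Body a U) {x y y' : ℝ}
    (hz : (x, y) ∈ KU a U) (hz' : (x, y') ∈ KU a U)
    (hl : ∀ s < x, (s, y) ∉ KU a U) (hr : ∀ s, x < s → (s, y') ∉ KU a U)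
    (hy : y' ≤ y) (hD : 0 < x * y - y' * x) :
    ∃ c : ℝ, 0 ≤ c ∧ volume (beyond a U (x, y') (x, y)) = ENNReal.ofReal c ∧
      c = (∫ s in (-a)..a, U s) - (∫ s in (-a)..x, cl U (x, y) 0 s) -
        (∫ s in x..a, cl U (x, y') 0 s) - (x - x) * (y + y') / 2 := by
  have hxI : x ∈ Icc (-a) a := KU_Icc hz
  have hyy : y' < y := by
    rcases hy.eq_or_lt with h1 | h1
    · rw [h1] at hD; nlinarith
    · exact h1
  have hcr : ∀ w : ℝ × ℝ, (cr (x, y') (x, y) < cr w (x, y) + cr (x, y') w) ↔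
      x < w.1 := by
    intro w
    have e : cr w (x, y) + cr (x, y') w - cr (x, y') (x, y)
        = (y - y') * (w.1 - x) := by
      unfold cr; simp only; ring
    constructor
    · intro h1
      have h2 : 0 < (y - y') * (w.1 - x) := by rw [← e]; linarith
      have := (mul_pos_iff_of_pos_left (by linarith)).1 h2
      linarith
    · intro h1
      have h2 : 0 < (y - y') * (w.1 - x) := mul_pos (by linarith) (by linarith)
      rw [← e] at h2
      linarith
  have hloc : ContinuousOn (fun s => -U (-s)) (Icc (-a) a) := (cont_neg h).neg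
  have hloc' : ContinuousOn (fun s => -U (-s)) (Icc x a) := hloc.mono (Icc_subset_Icc hxI.1 le_rfl)
  have hUc' : ContinuousOn U (Icc x a) := h.cont.mono (Icc_subset_Icc hxI.1 le_rfl)
  have hlg : ∀ s ∈ Icc x a, -U (-s) ≤ U s := fun s hs => lo_le_up h ⟨hxI.1.trans hs.1, hs.2⟩
  have hsub : (∫ s in x..a, (U s - -U (-s))) = (∫ s in x..a, U s) - ∫ s in x..a, -U (-s) :=
    intervalIntegral.integral_sub (ii_of_cont h.cont hxI (mem_a h))
      (ii_of_cont hloc hxI (mem_a h))
  refine ⟨∫ s in x..a, (U s - -U (-s)), ?_, ?_, ?_⟩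
  · apply intervalIntegral.integral_nonneg hxI.2
    intro s hs
    linarith [hlg s hs]
  · apply le_antisymm
    · apply vol_le' hxI.2 hloc' hUc' hlg
      rintro w ⟨hw1, hw2⟩
      rw [hcr] at hw2
      have hw3 := mem_KU_iff.1 hw1
      exact ⟨⟨hw2.le, hw3.1.2⟩, hw3.2.1, hw3.2.2⟩
    · apply le_vol' hxI.2 hloc' hUc' hlg
      intro s hs t ht1 ht2
      refine ⟨by rw [mem_KU_iff]; exact ⟨⟨by linarith [hs.1, hxI.1], hs.2.le⟩, ht1.le, ht2.le⟩, ?_⟩
      rw [hcr]
      exact hs.1
  · rw [hsub, AB_ints h hz hz' hl hr hy le_rfl hD]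
    ring

theorem ends_c_le {a : ℝ} {U : ℝ → ℝ} (h : Body a U) {x y x' y' : ℝ}
    (hz : (x, y) ∈ KU a U) (hz' : (x', y') ∈ KU a U)
    (hl : ∀ s < x, (s, y) ∉ KU a U) (hr : ∀ s, x' < s → (s, y') ∉ KU a U)
    (hy : y' ≤ y) (hD : 0 < x' * y - y' * x) :
    ∃ c : ℝ, 0 ≤ c ∧ volume (beyond a U (x', y') (x, y)) = ENNReal.ofReal c ∧
      c = (∫ s in (-a)..a, U s) - (∫ s in (-a)..x, cl U (x, y) 0 s) -
        (∫ s in x'..a, cl U (x', y') 0 s) - (x' - x) * (y + y') / 2 := by
  rcases lt_trichotomy x x' with h1 | h1 | h1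
  · exact beyond_lt h hz hz' hl hr hy h1
  · subst h1
    exact beyond_eq h hz hz' hl hr hy hD
  · exact beyond_gt h hz hz' hl hr hy h1 hD

/-- the identity, `y' ≤ y` -/
theorem ends_id_le {a : ℝ} {U : ℝ → ℝ} (h : Body a U) {z z' : ℝ × ℝ}
    (hz : z ∈ KU a U) (hz' : z' ∈ KU a U)
    (hl : ∀ s < z.1, (s, z.2) ∉ KU a U) (hr : ∀ s, z'.1 < s → (s, z'.2) ∉ KU a U)
    (hy : z'.2 ≤ z.2) (hD : 0 < cr z' z) :
    ∃ c : ℝ, 0 ≤ c ∧ volume (beyond a U z' z) = ENNReal.ofReal c ∧
      Phi a U z 0 - Phi a U z' 0 = cr z' z + 2 * c - kA a U z 0 - kA a U z' 0 := by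
  obtain ⟨x, y⟩ := z
  obtain ⟨x', y'⟩ := z'
  have hxI : x ∈ Icc (-a) a := KU_Icc hz
  have hxI' : x' ∈ Icc (-a) a := KU_Icc hz'
  obtain ⟨c, hc0, hc1, hc2⟩ := ends_c_le h hz hz' hl hr hy hD
  refine ⟨c, hc0, hc1, ?_⟩
  have k1 : kA a U (x, y) 0 = (∫ s in (-a)..a, U s) - ∫ s in (-a)..a, cl U (x, y) 0 s :=
    intervalIntegral.integral_sub (ii_of_cont h.cont (mem_na h) (mem_a h))
      (cl_ii h _ _ (mem_na h) (mem_a h))
  have k2 : kA a U (x', y') 0 = (∫ s in (-a)..a, U s) - ∫ s in (-a)..a, cl U (x', y') 0 s :=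
    intervalIntegral.integral_sub (ii_of_cont h.cont (mem_na h) (mem_a h))
      (cl_ii h _ _ (mem_na h) (mem_a h))
  have s1 : (∫ s in (-a)..a, cl U (x, y) 0 s) = (∫ s in (-a)..x, cl U (x, y) 0 s) + ∫ s in x..a, cl U (x, y) 0 s :=
    (intervalIntegral.integral_add_adjacent_intervals (cl_ii h _ _ (mem_na h) hxI)
      (cl_ii h _ _ hxI (mem_a h))).symm
  have s2 : (∫ s in (-a)..a, cl U (x', y') 0 s) = (∫ s in (-a)..x', cl U (x', y') 0 s) + ∫ s in x'..a, cl U (x', y') 0 s :=
    (intervalIntegral.integral_add_adjacent_intervals (cl_ii h _ _ (mem_na h) hxI')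
      (cl_ii h _ _ hxI' (mem_a h))).symm
  rw [k1, k2, s1, s2, hc2]
  unfold Phi cr
  simp only
  ring

theorem kA_mirror {a : ℝ} {U : ℝ → ℝ} (z : ℝ × ℝ) :
    kA a (fun s => U (-s)) (-z.1, z.2) 0 = kA a U z 0 := by
  unfold kA
  have := intervalIntegral.integral_comp_neg (a := -a) (b := a) (fun s => U s - cl U z 0 s)
  rw [neg_neg] at this
  rw [← this]
  apply intervalIntegral.integral_congr
  intro s _
  simp [cl]

theorem Vol_mirror {a : ℝ} {U : ℝ → ℝ} : Vol a (fun s => U (-s)) = Vol a U := by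
  unfold Vol
  apply intervalIntegral.integral_congr
  intro s _
  simp only [neg_neg]
  ring

theorem volume_mirror (E : Set (ℝ × ℝ)) :
    volume ((fun w : ℝ × ℝ => (-w.1, w.2)) ⁻¹' E) = volume E := by
  set f := Matrix.toLin (Module.Basis.finTwoProd ℝ) (Module.Basis.finTwoProd ℝ) !![-1, 0; 0, 1] with hf
  have hdet : LinearMap.det f = -1 := by
    rw [hf, LinearMap.det_toLin, Matrix.det_fin_two_of]; norm_num
  have happ : (fun w : ℝ × ℝ => (-w.1, w.2)) = f := by
    funext w
    rw [hf, Matrix.toLin_finTwoProd_apply]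
    simp
  rw [happ, Measure.addHaar_preimage_linearMap volume (by rw [hdet]; norm_num), hdet]
  simp

theorem beyond_mirror {a : ℝ} {U : ℝ → ℝ} (p q : ℝ × ℝ) :
    volume (beyond a (fun s => U (-s)) (-q.1, q.2) (-p.1, p.2)) = volume (beyond a U p q) := by
  rw [← volume_mirror (beyond a U p q)]
  congr 1
  ext w
  simp only [beyond, mem_preimage, Set.mem_ofPred_eq, mem_mirror]
  unfold cr
  simp only
  constructor
  · rintro ⟨h1, h2⟩; exact ⟨h1, by linarith⟩
  · rintro ⟨h1, h2⟩; exact ⟨h1, by linarith⟩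

/-- the identity `Phi z - Phi z' = D + 2c - kA z - kA z'` -/
theorem ends_id {a : ℝ} {U : ℝ → ℝ} (h : Body a U) {z z' : ℝ × ℝ}
    (hz : z ∈ KU a U) (hz' : z' ∈ KU a U)
    (hl : ∀ s < z.1, (s, z.2) ∉ KU a U) (hr : ∀ s, z'.1 < s → (s, z'.2) ∉ KU a U)
    (hD : 0 < cr z' z) :
    ∃ c : ℝ, 0 ≤ c ∧ volume (beyond a U z' z) = ENNReal.ofReal c ∧
      Phi a U z 0 - Phi a U z' 0 = cr z' z + 2 * c - kA a U z 0 - kA a U z' 0 := by
  rcases le_total z'.2 z.2 with hy | hy
  · exact ends_id_le h hz hz' hl hr hy hD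
  · have h1 : ((-z'.1, z'.2) : ℝ × ℝ) ∈ KU a (fun s => U (-s)) := by
      rw [mem_mirror]; simpa using hz'
    have h2 : ((-z.1, z.2) : ℝ × ℝ) ∈ KU a (fun s => U (-s)) := by
      rw [mem_mirror]; simpa using hz
    have h3 : cr (-z.1, z.2) (-z'.1, z'.2) = cr z' z := by
      unfold cr; ring
    obtain ⟨c, hc0, hc1, hc2⟩ := ends_id_le h.mirror h1 h2
      (by
        intro s hs hm
        rw [mem_mirror] at hm
        simp only at hm hs
        exact hr (-s) (by linarith) hm)
      (by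
        intro s hs hm
        rw [mem_mirror] at hm
        simp only at hm hs
        exact hl (-s) (by linarith) hm)
      (by simpa using hy) (by rw [h3]; exact hD)
    rw [beyond_mirror] at hc1
    rw [Phi_mirror, Phi_mirror, kA_mirror, kA_mirror, h3] at hc2
    exact ⟨c, hc0, hc1, by linarith⟩

end
end FT722
#print axioms FT722.ends_id
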