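import Mathlib
import Pool.Agent.FT722.Stn2
import Pool.Agent.FT179.Jv
set_option autoImplicit false
open MeasureTheory intervalIntegral Set Filter Topology
namespace FT722
noncomputable section

theorem vol_eq' {p q : ℝ} {f g : ℝ → ℝ} (ha : p ≤ q) (hf : ContinuousOn f (Icc p q))
    (hg : ContinuousOn g (Icc p q)) (hfg : ∀ s ∈ Icc p q, f s ≤ g s) {E : Set (ℝ × ℝ)}
    (hE1 : ∀ s ∈ Ioo p q, ∀ t, f s < t → t < g s → (s, t) ∈ E)
    (hE2 : ∀ w ∈ E, w.1 ∈ Icc p q ∧ f w.1 ≤ w.2 ∧ w.2 ≤ g w.1) :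
    (volume E).toReal = ∫ s in p..q, (g s - f s) := by
  have h1 := le_vol' ha hf hg hfg hE1
  have h2 := vol_le' ha hf hg hfg hE2
  rw [le_antisymm h2 h1, ENNReal.toReal_ofReal]
  apply intervalIntegral.integral_nonneg ha
  intro s hs
  linarith [hfg s hs]

theorem ar_KU_Vol {a : ℝ} {U : ℝ → ℝ} (h : Body a U) : ar (KU a U) = Vol a U := by
  have := vol_eq' (f := fun s => -U (-s)) (g := U) (E := KU a U) (by linarith [h.pos]) (cont_neg h).neg h.cont
    (fun s hs => lo_le_up h hs)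
    (fun s hs t h1 h2 => by rw [mem_KU_iff]; exact ⟨Ioo_subset_Icc_self hs, h1.le, h2.le⟩)
    (fun w hw => mem_KU_iff.1 hw)
  unfold ar Vol
  rw [this]
  apply intervalIntegral.integral_congr
  intro s _
  simp only
  ring

theorem cap_down {a : ℝ} {U : ℝ → ℝ} (h : Body a U) (z : ℝ × ℝ) (μ : ℝ) :
    cap (KU a U) z (1, μ) = Vol a U - kA a U z μ := by
  have hm : ∀ p : ℝ × ℝ, p ∈ Hs z (1, μ) ↔ p.2 < z.2 + μ * (p.1 - z.1) := by
    intro p
    unfold Hs cr
    simp only [Set.mem_ofPred_eq, Prod.fst_sub, Prod.snd_sub]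
    constructor <;> intro h1 <;> linarith
  have := vol_eq' (f := fun s => -U (-s)) (g := cl U z μ) (E := KU a U ∩ Hs z (1, μ)) (by linarith [h.pos]) (cont_neg h).neg (cl_cont h z μ)
    (fun s hs => cl_lo' U z μ s)
    (fun s hs t h1 h2 => by
      have h3 : t < min (U s) (z.2 + μ * (s - z.1)) := by
        rcases lt_max_iff.1 h2 with h4 | h4
        · linarith
        · exact h4
      rw [lt_min_iff] at h3
      refine ⟨by rw [mem_KU_iff]; exact ⟨Ioo_subset_Icc_self hs, h1.le, h3.1.le⟩, ?_⟩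
      rw [hm]; exact h3.2)
    (fun w hw => by
      obtain ⟨h1, h2⟩ := hw
      rw [hm] at h2
      have h3 := mem_KU_iff.1 h1
      exact ⟨h3.1, h3.2.1, le_max_of_le_right (le_min h3.2.2 h2.le)⟩)
  unfold cap
  rw [this, kA, Vol, ← intervalIntegral.integral_sub]
  · apply intervalIntegral.integral_congr
    intro s _
    simp only
    ring
  · exact ii_of_cont (h.cont.add (cont_neg h)) (mem_na h) (mem_a h)
  · exact ii_of_cont (h.cont.sub (cl_cont h z μ)) (mem_na h) (mem_a h)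

theorem cap_up {a : ℝ} {U : ℝ → ℝ} (h : Body a U) (z : ℝ × ℝ) (μ : ℝ) :
    cap (KU a U) z (-1, -μ) = kA a U z μ := by
  have hm : ∀ p : ℝ × ℝ, p ∈ Hs z (-1, -μ) ↔ z.2 + μ * (p.1 - z.1) < p.2 := by
    intro p
    unfold Hs cr
    simp only [Set.mem_ofPred_eq, Prod.fst_sub, Prod.snd_sub]
    constructor <;> intro h1 <;> linarith
  have := vol_eq' (f := cl U z μ) (g := U) (E := KU a U ∩ Hs z (-1, -μ)) (by linarith [h.pos]) (cl_cont h z μ) h.cont
    (fun s hs => cl_hi' h z μ hs)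
    (fun s hs t h1 h2 => by
      rw [cl, max_lt_iff, min_lt_iff] at h1
      refine ⟨by rw [mem_KU_iff]; exact ⟨Ioo_subset_Icc_self hs, h1.1.le, h2.le⟩, ?_⟩
      rw [hm]
      rcases h1.2 with h3 | h3
      · linarith
      · exact h3)
    (fun w hw => by
      obtain ⟨h1, h2⟩ := hw
      rw [hm] at h2
      have h3 := mem_KU_iff.1 h1
      exact ⟨h3.1, max_le h3.2.1 ((min_le_right _ _).trans h2.le), h3.2.2⟩)
  unfold cap
  rw [this, kA]

theorem cap_right {a : ℝ} {U : ℝ → ℝ} (h : Body a U) {z : ℝ × ℝ} (hz : z ∈ KU a U) :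
    cap (KU a U) z (0, 1) = kAR a U z := by
  have hI := KU_Icc hz
  have hm : ∀ p : ℝ × ℝ, p ∈ Hs z (0, 1) ↔ z.1 < p.1 := by
    intro p
    unfold Hs cr
    simp only [Set.mem_ofPred_eq, Prod.fst_sub, Prod.snd_sub]
    constructor <;> intro h1 <;> linarith
  have hsub : Icc z.1 a ⊆ Icc (-a) a := Icc_subset_Icc hI.1 le_rfl
  have := vol_eq' (f := fun s => -U (-s)) (g := U) (E := KU a U ∩ Hs z (0, 1)) hI.2 ((cont_neg h).neg.mono hsub) (h.cont.mono hsub)
    (fun s hs => lo_le_up h (hsub hs))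
    (fun s hs t h1 h2 => by
      refine ⟨by rw [mem_KU_iff]; exact ⟨hsub (Ioo_subset_Icc_self hs), h1.le, h2.le⟩, ?_⟩
      rw [hm]
      exact hs.1)
    (fun w hw => by
      obtain ⟨h1, h2⟩ := hw
      rw [hm] at h2
      have h3 := mem_KU_iff.1 h1
      exact ⟨⟨h2.le, h3.1.2⟩, h3.2.1, h3.2.2⟩)
  unfold cap
  rw [this, kAR]
  apply intervalIntegral.integral_congr
  intro s _
  simp only
  ring

theorem cap_left {a : ℝ} {U : ℝ → ℝ} (h : Body a U) {z : ℝ × ℝ} (hz : z ∈ KU a U) :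
    cap (KU a U) z (0, -1) = kAL a U z := by
  have hI := KU_Icc hz
  have hm : ∀ p : ℝ × ℝ, p ∈ Hs z (0, -1) ↔ p.1 < z.1 := by
    intro p
    unfold Hs cr
    simp only [Set.mem_ofPred_eq, Prod.fst_sub, Prod.snd_sub]
    constructor <;> intro h1 <;> linarith
  have hsub : Icc (-a) z.1 ⊆ Icc (-a) a := Icc_subset_Icc le_rfl hI.2
  have := vol_eq' (f := fun s => -U (-s)) (g := U) (E := KU a U ∩ Hs z (0, -1)) hI.1 ((cont_neg h).neg.mono hsub) (h.cont.mono hsub)
    (fun s hs => lo_le_up h (hsub hs))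
    (fun s hs t h1 h2 => by
      refine ⟨by rw [mem_KU_iff]; exact ⟨hsub (Ioo_subset_Icc_self hs), h1.le, h2.le⟩, ?_⟩
      rw [hm]
      exact hs.2)
    (fun w hw => by
      obtain ⟨h1, h2⟩ := hw
      rw [hm] at h2
      have h3 := mem_KU_iff.1 h1
      exact ⟨⟨h3.1.1, h2.le⟩, h3.2.1, h3.2.2⟩)
  unfold cap
  rw [this, kAL]
  apply intervalIntegral.integral_congr
  intro s _
  simp only
  ring

theorem capf_down {a : ℝ} {U : ℝ → ℝ} (h : Body a U) (z : ℝ × ℝ) (μ : ℝ) :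
    capf (KU a U) z (1, μ) = kf a U z μ := by
  have hv : (volume (KU a U)).toReal = Vol a U := ar_KU_Vol h
  unfold capf kf
  rw [cap_down h, hv, min_comm]
  congr 1
  ring

theorem capf_up {a : ℝ} {U : ℝ → ℝ} (h : Body a U) (z : ℝ × ℝ) (μ : ℝ) :
    capf (KU a U) z (-1, -μ) = kf a U z μ := by
  have hv : (volume (KU a U)).toReal = Vol a U := ar_KU_Vol h
  unfold capf kf
  rw [cap_up h, hv]

theorem capf_right {a : ℝ} {U : ℝ → ℝ} (h : Body a U) {z : ℝ × ℝ} (hz : z ∈ KU a U) :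
    capf (KU a U) z (0, 1) = kv a U z := by
  have hv : (volume (KU a U)).toReal = Vol a U := ar_KU_Vol h
  unfold capf kv
  rw [cap_right h hz, hv]

theorem capf_left {a : ℝ} {U : ℝ → ℝ} (h : Body a U) {z : ℝ × ℝ} (hz : z ∈ KU a U) :
    capf (KU a U) z (0, -1) = kv a U z := by
  have hv : (volume (KU a U)).toReal = Vol a U := ar_KU_Vol h
  unfold capf kv
  rw [cap_left h hz, hv, ← kAL_add_kAR h hz, min_comm]
  congr 1 <;> ring

end
end FT722
#print axioms FT722.capf_left
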