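import Mathlib
import Pool.Agent.FT934.Defs
set_option autoImplicit false
namespace FT722

/-- coordinates: `|z1| + |z2| ≤ m + e` etc. imply the support bound -/
theorem cross_bound1 {q1 q2 b1 b2 m e : ℝ} (hb2 : |b2| ≤ m) (hb : |b1| + |b2| ≤ m + e)
    (hq : |q2| ≤ |q1|) : q1 * b2 - q2 * b1 ≤ m * |q1| + e * |q2| := by
  have h1 : q1 * b2 ≤ |q1| * |b2| := by rw [← abs_mul]; exact le_abs_self _
  have h2 : -(q2 * b1) ≤ |q2| * |b1| := by rw [← abs_mul]; exact neg_le_abs _
  have h3 : (|q1| - |q2|) * |b2| ≤ (|q1| - |q2|) * m :=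
    mul_le_mul_of_nonneg_left hb2 (by linarith)
  have h4 : |q2| * (|b1| + |b2|) ≤ |q2| * (m + e) := mul_le_mul_of_nonneg_left hb (abs_nonneg _)
  nlinarith

theorem cross_bound2 {q1 q2 b1 b2 m e : ℝ} (hb1 : |b1| ≤ m) (hb : |b1| + |b2| ≤ m + e)
    (hq : |q1| ≤ |q2|) : q1 * b2 - q2 * b1 ≤ m * |q2| + e * |q1| := by
  have h1 : q1 * b2 ≤ |q1| * |b2| := by rw [← abs_mul]; exact le_abs_self _
  have h2 : -(q2 * b1) ≤ |q2| * |b1| := by rw [← abs_mul]; exact neg_le_abs _
  have h3 : (|q2| - |q1|) * |b1| ≤ (|q2| - |q1|) * m :=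
    mul_le_mul_of_nonneg_left hb1 (by linarith)
  have h4 : |q1| * (|b1| + |b2|) ≤ |q1| * (m + e) := mul_le_mul_of_nonneg_left hb (abs_nonneg _)
  nlinarith

/-- same-axis case: `x, y` the big coordinates, `a, b` the small ones -/
theorem same_axis {x y a b m e : ℝ} (he : 0 ≤ e) (hm : 0 ≤ m) (ha : 0 ≤ a) (hb : 0 ≤ b)
    (hbm : b ≤ m) (ham : a ≤ m) (hx : x ≤ m) (hy : y ≤ m) (hxa : x + a ≤ m + e)
    (hyb : y + b ≤ m + e) (_hx0 : 0 ≤ x) (_hy0 : 0 ≤ y) :
    x * (m + b) + y * (m + a) + e * (a + b) ≤ 2 * m ^ 2 + 2 * m * e + 2 * e ^ 2 := by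
  rcases le_total a e with h1 | h1
  · rcases le_total b e with h2 | h2
    · have := mul_le_mul_of_nonneg_right hx (by linarith : 0 ≤ m + b)
      have := mul_le_mul_of_nonneg_right hy (by linarith : 0 ≤ m + a)
      nlinarith
    · have k1 := mul_le_mul_of_nonneg_right hx (by linarith : 0 ≤ m + b)
      have k2 := mul_le_mul_of_nonneg_right (by linarith : y ≤ m + e - b) (by linarith : 0 ≤ m + a)
      have k3 : 0 ≤ (e - a) * (m + 2 * e - b) := mul_nonneg (by linarith) (by linarith)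
      nlinarith
  · rcases le_total b e with h2 | h2
    · have k1 := mul_le_mul_of_nonneg_right hy (by linarith : 0 ≤ m + a)
      have k2 := mul_le_mul_of_nonneg_right (by linarith : x ≤ m + e - a) (by linarith : 0 ≤ m + b)
      have k3 : 0 ≤ (e - b) * (m + 2 * e - a) := mul_nonneg (by linarith) (by linarith)
      nlinarith
    · have k1 := mul_le_mul_of_nonneg_right (by linarith : x ≤ m + e - a) (by linarith : 0 ≤ m + b)
      have k2 := mul_le_mul_of_nonneg_right (by linarith : y ≤ m + e - b) (by linarith : 0 ≤ m + a)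
      have k3 : 0 ≤ (a - e) * (b - e) := mul_nonneg (by linarith) (by linarith)
      nlinarith

/-- adjacent-axes case: `x, y` the big coordinates, `a, b` the small ones, `g` the cross product -/
theorem adj_axis {x y a b m e g : ℝ} (he : 0 ≤ e) (hem : e ≤ m) (hm : 0 < m)
    (ha : 0 ≤ a) (hb : 0 ≤ b) (hx : x ≤ m) (hy : y ≤ m) (hxa : x + a ≤ m + e)
    (hyb : y + b ≤ m + e) (hg : x * y - a * b ≤ g)
    (hfail : 2 * m ^ 2 + 2 * m * e + 2 * e ^ 2 < m * x + m * y + e * (a + b) + g) :
    m ^ 2 / 2 ≤ g := by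
  by_contra hc
  push Not at hc
  have k1 : a * b ≤ (m + e - x) * (m + e - y) :=
    mul_le_mul (by linarith) (by linarith) hb (by linarith)
  have k2 : (m + e) * (x + y - m - e) < m ^ 2 / 2 := by nlinarith
  have k3 : e * (a + b) ≤ e * (2 * m + 2 * e - x - y) :=
    mul_le_mul_of_nonneg_left (by linarith) he
  have k4 : 3 / 2 * m ^ 2 < (m - e) * (x + y) := by nlinarith
  -- (m+e) * (m-e) * (x+y) bounded
  have k5 : (m - e) * ((m + e) * (x + y - m - e)) ≤ (m - e) * (m ^ 2 / 2) :=
    mul_le_mul_of_nonneg_left k2.le (by linarith)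
  have k6 : (m + e) * (3 / 2 * m ^ 2) < (m + e) * ((m - e) * (x + y)) :=
    mul_lt_mul_of_pos_left k4 (by linarith)
  have k7 : 0 ≤ e * (m * m) := by positivity
  have k8 : 0 ≤ e * (e * m) := by positivity
  have k9 : 0 ≤ e * (e * e) := by positivity
  nlinarith

set_option maxHeartbeats 2000000 in
/-- (E""): see doc 1130. -/
theorem Epp {K : Set (ℝ × ℝ)} {m h V : ℝ} (hneg : ∀ p ∈ K, -p ∈ K)
    (hm : ∀ p ∈ K, ∀ q ∈ K, cr p q ≤ m)
    (hh : ∀ p ∈ K, ∀ q ∈ K, ∀ r ∈ K, cr p q + cr q r + cr p r ≤ h)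
    {u v : ℝ × ℝ} (hu : u ∈ K) (hv : v ∈ K) (huv : cr u v = m) (hm0 : 0 < m)
    (he : 0 ≤ h - 2 * m) (hem : h - 2 * m ≤ m)
    (hV : V ≤ 2 * m + 4 * (h - 2 * m) - 2 * (h - 2 * m) ^ 2 / m)
    {Q U A B : ℝ × ℝ} (hQ : Q ∈ K) (hU : U ∈ K) (hA : A ∈ K) (hB : B ∈ K) (hg : 0 < cr Q U) :
    cr Q B + cr U A + cr Q U ≤ 2 * h + 4 * (h - 2 * m) - V ∨ m / 2 ≤ cr Q U := by
  set e := h - 2 * m with hedef
  -- coordinates of a point
  have coord : ∀ z ∈ K, |cr z v| ≤ m ∧ |cr u z| ≤ m ∧ |cr z v| + |cr u z| ≤ m + e := by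
    intro z hz
    have hz' := hneg z hz
    have hu' := hneg u hu
    have hv' := hneg v hv
    have n1 : cr (-z) v = -cr z v := by unfold cr; simp only [Prod.fst_neg, Prod.snd_neg]; ring
    have n2 : cr u (-z) = -cr u z := by unfold cr; simp only [Prod.fst_neg, Prod.snd_neg]; ring
    have a1 := hm z hz v hv
    have a2 := hm (-z) hz' v hv
    have a3 := hm u hu z hz
    have a4 := hm u hu (-z) hz'
    have b1 := hh u hu z hz v hv
    have b2 := hh u hu (-z) hz' v hv
    have b3 := hh v hv z hz (-u) hu'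
    have b4 := hh v hv (-z) hz' (-u) hu'
    have n3 : cr v z = -cr z v := by unfold cr; ring
    have n4 : cr z (-u) = cr u z := by unfold cr; simp only [Prod.fst_neg, Prod.snd_neg]; ring
    have n5 : cr v (-u) = cr u v := by unfold cr; simp only [Prod.fst_neg, Prod.snd_neg]; ring
    have n6 : cr v (-z) = cr z v := by unfold cr; simp only [Prod.fst_neg, Prod.snd_neg]; ring
    have n7 : cr (-z) (-u) = -cr u z := by unfold cr; simp only [Prod.fst_neg, Prod.snd_neg]; ring
    rw [n1] at a2 b2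
    rw [n2] at a4 b2
    rw [n3, n4, n5, huv] at b3
    rw [n6, n7, n5, huv] at b4
    rw [huv] at b1 b2
    refine ⟨abs_le.2 ⟨by linarith, a1⟩, abs_le.2 ⟨by linarith, a3⟩, ?_⟩
    rcases abs_cases (cr z v) with ⟨h1, _⟩ | ⟨h1, _⟩ <;>
      rcases abs_cases (cr u z) with ⟨h2, _⟩ | ⟨h2, _⟩ <;> rw [h1, h2] <;> linarith
  have plu : ∀ x y : ℝ × ℝ, m * cr x y = cr x v * cr u y - cr u x * cr y v := by
    intro x y; rw [← huv]; unfold cr; ring
  obtain ⟨Q1, Q2, Q3⟩ := coord Q hQ
  obtain ⟨U1, U2, U3⟩ := coord U hU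
  obtain ⟨A1, A2, A3⟩ := coord A hA
  obtain ⟨B1, B2, B3⟩ := coord B hB
  have pQB := plu Q B
  have pUA := plu U A
  have pQU := plu Q U
  have hVm : m * V ≤ 2 * m ^ 2 + 4 * m * e - 2 * e ^ 2 := by
    have := mul_le_mul_of_nonneg_left hV hm0.le
    have e1 : m * (2 * m + 4 * e - 2 * e ^ 2 / m) = 2 * m ^ 2 + 4 * m * e - 2 * e ^ 2 := by
      field_simp
    linarith
  have hh2 : h = 2 * m + e := by rw [hedef]; ring
  -- reduce the goal to the scaled inequality
  have red : m * cr Q B + m * cr U A + m * cr Q U ≤ 2 * m ^ 2 + 2 * m * e + 2 * e ^ 2 →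
      cr Q B + cr U A + cr Q U ≤ 2 * h + 4 * e - V := by
    intro h1
    have : m * (cr Q B + cr U A + cr Q U) ≤ m * (2 * h + 4 * e - V) := by rw [hh2]; nlinarith
    exact le_of_mul_le_mul_left this hm0
  rcases le_total |cr u Q| |cr Q v| with hq | hq
  · have cQ := cross_bound1 (q1 := cr Q v) (q2 := cr u Q) B2 B3 hq
    rcases le_total |cr u U| |cr U v| with hw | hw
    · left
      apply red
      have cU := cross_bound1 (q1 := cr U v) (q2 := cr u U) A2 A3 hw
      have s1 : cr Q v * cr u U ≤ |cr Q v| * |cr u U| := by rw [← abs_mul]; exact le_abs_self _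
      have s2 : -(cr u Q * cr U v) ≤ |cr u Q| * |cr U v| := by rw [← abs_mul]; exact neg_le_abs _
      have := same_axis (x := |cr Q v|) (y := |cr U v|) (a := |cr u Q|) (b := |cr u U|) he hm0.le
        (abs_nonneg _) (abs_nonneg _) U2 Q2 Q1 U1 Q3 U3 (abs_nonneg _) (abs_nonneg _)
      nlinarith
    · have cU := cross_bound2 (q1 := cr U v) (q2 := cr u U) A1 A3 hw
      have hpos : 0 < cr Q v * cr u U - cr u Q * cr U v := by
        rw [← pQU]; exact mul_pos hm0 hg
      have s0 : |cr u Q| * |cr U v| ≤ |cr Q v| * |cr u U| :=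
        mul_le_mul hq hw (abs_nonneg _) (abs_nonneg _)
      have s1 : -(cr u Q * cr U v) ≤ |cr u Q| * |cr U v| := by rw [← abs_mul]; exact neg_le_abs _
      have s2 : (cr u Q * cr U v) ≤ |cr u Q| * |cr U v| := by rw [← abs_mul]; exact le_abs_self _
      have s3 : |cr Q v| * |cr u U| = cr Q v * cr u U := by
        rw [← abs_mul]
        apply abs_of_nonneg
        by_contra hc
        push Not at hc
        have : |cr Q v * cr u U| = -(cr Q v * cr u U) := abs_of_neg hc
        rw [abs_mul] at this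
        linarith
      by_cases hfin : 2 * m ^ 2 + 2 * m * e + 2 * e ^ 2 <
          m * |cr Q v| + m * |cr u U| + e * (|cr u Q| + |cr U v|) + m * cr Q U
      · right
        have := adj_axis (x := |cr Q v|) (y := |cr u U|) (a := |cr u Q|) (b := |cr U v|)
          (g := m * cr Q U) he hem hm0
          (abs_nonneg _) (abs_nonneg _) Q1 U2 Q3 (by linarith) (by rw [pQU, s3]; linarith) hfin
        have h2 : m * (m / 2) ≤ m * cr Q U := by nlinarith
        exact le_of_mul_le_mul_left h2 hm0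
      · left
        push Not at hfin
        apply red
        linarith
  · have cQ := cross_bound2 (q1 := cr Q v) (q2 := cr u Q) B1 B3 hq
    rcases le_total |cr U v| |cr u U| with hw | hw
    · left
      apply red
      have cU := cross_bound2 (q1 := cr U v) (q2 := cr u U) A1 A3 hw
      have s1 : cr Q v * cr u U ≤ |cr Q v| * |cr u U| := by rw [← abs_mul]; exact le_abs_self _
      have s2 : -(cr u Q * cr U v) ≤ |cr u Q| * |cr U v| := by rw [← abs_mul]; exact neg_le_abs _
      have := same_axis (x := |cr u Q|) (y := |cr u U|) (a := |cr Q v|) (b := |cr U v|) he hm0.le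
        (abs_nonneg _) (abs_nonneg _) U1 Q1 Q2 U2 (by linarith) (by linarith)
        (abs_nonneg _) (abs_nonneg _)
      nlinarith
    · have cU := cross_bound1 (q1 := cr U v) (q2 := cr u U) A2 A3 hw
      have hpos : 0 < cr Q v * cr u U - cr u Q * cr U v := by
        rw [← pQU]; exact mul_pos hm0 hg
      have s0 : |cr Q v| * |cr u U| ≤ |cr u Q| * |cr U v| :=
        mul_le_mul hq hw (abs_nonneg _) (abs_nonneg _)
      have s1 : (cr Q v * cr u U) ≤ |cr Q v| * |cr u U| := by rw [← abs_mul]; exact le_abs_self _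
      have s2 : -(cr Q v * cr u U) ≤ |cr Q v| * |cr u U| := by rw [← abs_mul]; exact neg_le_abs _
      have s3 : |cr u Q| * |cr U v| = -(cr u Q * cr U v) := by
        rw [← abs_mul]
        apply abs_of_nonpos
        by_contra hc
        push Not at hc
        have : |cr u Q * cr U v| = (cr u Q * cr U v) := abs_of_pos hc
        rw [abs_mul] at this
        linarith
      by_cases hfin : 2 * m ^ 2 + 2 * m * e + 2 * e ^ 2 <
          m * |cr u Q| + m * |cr U v| + e * (|cr Q v| + |cr u U|) + m * cr Q U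
      · right
        have := adj_axis (x := |cr u Q|) (y := |cr U v|) (a := |cr Q v|) (b := |cr u U|)
          (g := m * cr Q U) he hem hm0
          (abs_nonneg _) (abs_nonneg _) Q2 U1 (by linarith) U3 (by rw [pQU, s3]; linarith) hfin
        have h2 : m * (m / 2) ≤ m * cr Q U := by nlinarith
        exact le_of_mul_le_mul_left h2 hm0
      · left
        push Not at hfin
        apply red
        linarith

end FT722
#print axioms FT722.Epp
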