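import Mathlib
set_option autoImplicit false
namespace FT722

/-- numeric endgame of the case `b = 4`, one A-cell, small `E''` failing; here `H = 1 + s`. -/
theorem b4_num {t m L H g X VC : ℝ} (_ht : 0 < t) (htm : 2 * t ≤ 3 * m)
    (hL : 0 < L) (hH : 1 < H) (hH2 : H ≤ 2) (hLH : L * H ≤ t) (hγ : m / 4 ≤ L * (H - 1))
    (hX : t + L * (H - 1) ≤ X) (hg : 0 < g)
    (hX1 : g * H ≤ 2 * L → X ≤ 2 * L * H - g * H ^ 2 / 2)
    (hX2 : 2 * L < g * H → X * g ≤ 2 * L ^ 2)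
    (hVC : VC ≤ X + 4 * L + 2 * g + t) : VC ≤ 8 * t := by
  have h1 : t / 6 ≤ L * (H - 1) := by linarith
  have hH65 : 6 / 5 ≤ H := by
    by_contra hc
    push Not at hc
    have : L * (H - 1) < L * H / 6 := by nlinarith
    linarith
  rcases lt_or_ge (2 * L) (g * H) with hc | hc
  · exfalso
    have h2 := hX2 hc
    have hXp : 0 < X := by nlinarith
    have h3 : X * (2 * L) < X * (g * H) := mul_lt_mul_of_pos_left hc hXp
    have h4 : X * (g * H) ≤ 2 * L ^ 2 * H := by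
      have := mul_le_mul_of_nonneg_right h2 (by linarith : (0:ℝ) ≤ H)
      nlinarith
    have h5 : X < L * H := by
      have : L * (2 * X) < L * (2 * (L * H)) := by nlinarith
      have := lt_of_mul_lt_mul_left this hL.le
      linarith
    nlinarith
  · have h2 := hX1 hc
    have hHp : (0:ℝ) < H ^ 2 := by positivity
    have k1 : H ^ 2 * VC ≤ X * (H ^ 2 - 4) + 4 * L * H ^ 2 + t * H ^ 2 + 8 * L * H := by
      have a1 := mul_le_mul_of_nonneg_left hVC hHp.le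
      nlinarith
    have k2 : X * (H ^ 2 - 4) ≤ (t + L * (H - 1)) * (H ^ 2 - 4) := by
      have : (H ^ 2 - 4) ≤ 0 := by nlinarith
      nlinarith
    have k3 : L * (H ^ 3 + 3 * H ^ 2 + 4 * H + 4) * H ≤ t * (H ^ 3 + 3 * H ^ 2 + 4 * H + 4) := by
      have : (0:ℝ) ≤ H ^ 3 + 3 * H ^ 2 + 4 * H + 4 := by positivity
      nlinarith
    have k4 : 0 ≤ 5 * H ^ 3 - 3 * H ^ 2 - 4 := by
      have : 0 ≤ (H - 6 / 5) * (5 * H ^ 2 + 3 * H + 18 / 5) := mul_nonneg (by linarith) (by positivity)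
      nlinarith
    have k5 : (H ^ 2 * VC) * H ≤ (8 * t * H ^ 2) * H := by
      have b1 : (H ^ 2 * VC) * H ≤ (X * (H ^ 2 - 4) + 4 * L * H ^ 2 + t * H ^ 2 + 8 * L * H) * H :=
        mul_le_mul_of_nonneg_right k1 (by linarith)
      have b2 : X * (H ^ 2 - 4) * H ≤ (t + L * (H - 1)) * (H ^ 2 - 4) * H :=
        mul_le_mul_of_nonneg_right k2 (by linarith)
      have b3 : 0 ≤ t * (5 * H ^ 3 - 3 * H ^ 2 - 4) := mul_nonneg _ht.le k4
      nlinarith
    have k6 : H ^ 2 * VC ≤ 8 * t * H ^ 2 := le_of_mul_le_mul_right k5 (by linarith)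
    have k7 : H ^ 2 * VC ≤ H ^ 2 * (8 * t) := by linarith
    exact le_of_mul_le_mul_left k7 hHp
end FT722
#print axioms FT722.b4_num
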